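import Mathlib
import Pool.Agent.HS.M_cube_heat_fail

set_option autoImplicit false

namespace Pool.Agent.Results.MP_f066c6_an.HeatFailsAllP

/-- For every `1 < p < 2` and every `c > 0` there are `d ≥ 1`, `N`, a real function `f` on the
`N`-cube whose Walsh coefficients vanish for `|S| < d`, and `t > 0` such that
`‖P_t f‖_p > e^{-tdc} ‖f‖_p`, where `P_t` multiplies the Walsh coefficient at `S` by
`e^{-t|S|}`. -/
theorem result (p c : ℝ) (hp : 1 < p) (hp2 : p < 2) (hc : 0 < c) :
    ∃ (d N : ℕ) (f : (Fin N → Bool) → ℝ) (t : ℝ), 1 ≤ d ∧ 0 < t ∧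
      (∀ S : Finset (Fin N), S.card < d →
        ∑ x : Fin N → Bool, f x * ∏ i ∈ S, (if x i then (-1 : ℝ) else 1) = 0) ∧
      Real.exp (-t * (d : ℝ) * c) * (∑ x : Fin N → Bool, |f x| ^ p) ^ (1 / p) <
        (∑ x : Fin N → Bool,
              |∑ S : Finset (Fin N),
                  Real.exp (-t * (S.card : ℝ)) *
                    ((1 / (2 : ℝ) ^ N) *
                      ∑ y : Fin N → Bool, f y * ∏ i ∈ S, (if y i then (-1 : ℝ) else 1)) *
                    ∏ i ∈ S, (if x i then (-1 : ℝ) else 1)| ^ p) ^ (1 / p) :=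
  HS.cube_heat_fail p c hp hp2 hc

end Pool.Agent.Results.MP_f066c6_an.HeatFailsAllP
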