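import Mathlib
import Pool.Agent.Helper187.HS.P_weak_fails
import Pool.Agent.Helper187.HS.P_transport
import Pool.Agent.Helper187.HS.P_heat_to_weak

set_option autoImplicit false

namespace Pool.Agent.Results.MP_f066c6_an.HeatSmoothingFails

open scoped BigOperators

/-- The Walsh function `χ_S` on the `n`-cube (`true` stands for the sign `-1`). -/
noncomputable def chi {n : ℕ} (S : Finset (Fin n)) (x : Fin n → Bool) : ℝ :=
  ∏ i ∈ S, (if x i then (-1 : ℝ) else 1)

/-- The Walsh coefficient `f^(S) = E f χ_S`. -/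
noncomputable def walsh {n : ℕ} (f : (Fin n → Bool) → ℝ) (S : Finset (Fin n)) : ℝ :=
  (∑ x : Fin n → Bool, f x * chi S x) / (2 : ℝ) ^ n

/-- The heat semigroup `P_t f = ∑_S exp(-t|S|) f^(S) χ_S`. -/
noncomputable def heat {n : ℕ} (t : ℝ) (f : (Fin n → Bool) → ℝ) : (Fin n → Bool) → ℝ :=
  fun x => ∑ S : Finset (Fin n), Real.exp (-t * (S.card : ℝ)) * walsh f S * chi S x

/-- The `L^p` norm for the uniform probability measure on the cube. -/
noncomputable def lpNorm {n : ℕ} (p : ℝ) (f : (Fin n → Bool) → ℝ) : ℝ :=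
  ((∑ x : Fin n → Bool, |f x| ^ p) / (2 : ℝ) ^ n) ^ (1 / p)

/-- `f` has degree at least `d`: all Walsh coefficients with `|S| < d` vanish. -/
def DegreeAtLeast {n : ℕ} (d : ℕ) (f : (Fin n → Bool) → ℝ) : Prop :=
  ∀ S : Finset (Fin n), S.card < d → walsh f S = 0

theorem lpNorm_eq {n : ℕ} (p : ℝ) (f : (Fin n → Bool) → ℝ) :
    lpNorm p f = Helper187.HS.nrm p f := by
  simp [lpNorm, Helper187.HS.nrm, Helper187.HS.mean]

theorem heat_eq {n : ℕ} (t : ℝ) (f : (Fin n → Bool) → ℝ) :
    heat t f = fun x => ∑ S : Finset (Fin n),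
      Real.exp (-t * (S.card : ℝ)) * Helper187.HS.mean (fun y => f y * Helper187.HS.chi S y) *
        Helper187.HS.chi S x := by
  funext x
  simp [heat, walsh, chi, Helper187.HS.mean, Helper187.HS.chi]

theorem degreeAtLeast_iff {n d : ℕ} (f : (Fin n → Bool) → ℝ) :
    DegreeAtLeast d f ↔ Helper187.HS.Tail d f := by
  unfold DegreeAtLeast Helper187.HS.Tail walsh
  constructor
  · intro h S hS
    have := h S hS
    rw [div_eq_zero_iff] at this
    rcases this with h0 | h0
    · exact h0
    · exact absurd h0 (by positivity)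
  · intro h S hS
    have h0 := h S hS
    simp only [Helper187.HS.chi] at h0
    simp only [chi, h0, zero_div]

/-- **Failure of heat smoothing on tail spaces.**  For `p = 4/3` there is no constant `c > 0`
with `‖P_t f‖_p ≤ exp(-t d c) ‖f‖_p` for all `d, n ≥ 1`, all `f` of degree at least `d` on the
`n`-cube and all `t ≥ 0`. -/
theorem result : ∀ c : ℝ, 0 < c → ∃ d n : ℕ, 1 ≤ d ∧ 1 ≤ n ∧
    ∃ (f : (Fin n → Bool) → ℝ) (t : ℝ), 0 ≤ t ∧ DegreeAtLeast d f ∧
      Real.exp (-(t * (d : ℝ) * c)) * lpNorm (4 / 3) f < lpNorm (4 / 3) (heat t f) := by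
  intro c hc
  obtain ⟨n, M, d, hd, f, hf, hlt⟩ := Helper187.HS.weak_fails c hc
  obtain ⟨f', hf', h1, h2⟩ := Helper187.HS.transport d f hf
  have key : Helper187.HS.nrm (4 / 3) (Helper187.HS.lap f') <
      (d : ℝ) * c * Helper187.HS.nrm (4 / 3) f' := by
    rw [h1, h2]
    exact hlt
  have hn : 1 ≤ Fintype.card (Helper187.HS.Idx n M) := by
    by_contra hn
    have hn0 : Fintype.card (Helper187.HS.Idx n M) = 0 := by omega
    have hemp : IsEmpty (Fin (Fintype.card (Helper187.HS.Idx n M))) := by
      rw [hn0]; infer_instance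
    have h3 := hf' ∅ (by simp; omega)
    have hz : f' = 0 := by
      funext x
      have hx : ∀ y : Fin (Fintype.card (Helper187.HS.Idx n M)) → Bool, y = x := by
        intro y
        funext i
        exact hemp.elim i
      have : ∑ y : Fin (Fintype.card (Helper187.HS.Idx n M)) → Bool,
          f' y * Helper187.HS.chi ∅ y = f' x := by
        rw [Finset.sum_eq_single x]
        · simp [Helper187.HS.chi]
        · intro y _ hy
          exact absurd (hx y) hy
        · intro h; exact absurd (Finset.mem_univ x) h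
      rw [this] at h3
      simpa using h3
    rw [hz] at key
    have hz1 : Helper187.HS.nrm (4 / 3)
        (0 : (Fin (Fintype.card (Helper187.HS.Idx n M)) → Bool) → ℝ) = 0 := by
      simp [Helper187.HS.nrm, Helper187.HS.mean]
    have hz2 : Helper187.HS.lap
        (0 : (Fin (Fintype.card (Helper187.HS.Idx n M)) → Bool) → ℝ) = 0 := by
      funext x
      simp [Helper187.HS.lap]
    rw [hz2, hz1] at key
    simp at key
  by_contra hcon
  push Not at hcon
  refine absurd (Helper187.HS.heat_to_weak (Fintype.card (Helper187.HS.Idx n M)) d c f' ?_)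
    (not_le.2 key)
  intro t ht
  have h4 := hcon d (Fintype.card (Helper187.HS.Idx n M)) hd hn f' t ht
    ((degreeAtLeast_iff f').2 hf')
  rw [lpNorm_eq, lpNorm_eq, heat_eq] at h4
  have h5 : -t * (d : ℝ) * c = -(t * (d : ℝ) * c) := by ring
  rw [h5]
  exact h4

end Pool.Agent.Results.MP_f066c6_an.HeatSmoothingFails
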